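import Pool.Agent.Helper56.FR.All

namespace Pool.Agent.Results.MP_aa1d7d_co.FourPointLines

open Pool.Agent.Helper56.FR

/-- The upper bound for the number of four-point lines below Melchior's constant `1 / 14`. -/
theorem result : ∃ c : ℝ, 0 < c ∧ ∃ n₀ : ℕ, ∀ P : Finset (ℝ × ℝ), n₀ ≤ P.card →
    (∀ L, IsLine L → ((P : Set (ℝ × ℝ)) ∩ L).ncard ≤ 4) →
    (tl P 4 : ℝ) ≤ (1 / 14 - c) * (P.card : ℝ) ^ 2 :=
  four_point_lines

end Pool.Agent.Results.MP_aa1d7d_co.FourPointLines
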